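import Mathlib
import Pool.Agent.U157.DL.Rig
import Pool.Agent.U803.DT.Main
import Pool.Agent.TH820.OddFinal

/-!
# Deligne's conjecture for Artin twists: normal subgroups built from classical groups
-/

set_option autoImplicit false
set_option linter.unusedSectionVars false

namespace Pool.Agent.U851.DL

open Pool.Agent.R389 Pool.Agent.H302R2 Pool.Agent.H302R3 Pool.Agent.H302R5 Pool.Agent.H302R6
  Pool.Agent.H541R3.ART Pool.Agent.W446.AS Filter Topology
open Pool.Agent.TH820 (BuiltC FacO)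
open Pool.Agent.H302R10 (Rigid)

variable {G : Type} [Group G] [Finite G] {E : Type} [Field E]
  {L : (E →+* ℂ) → (G → ℂ) → ℂ → ℂ} {P : (E →+* ℂ) → (G → ℂ) → ℂ} {c : ℂ}

/-- the function of the orders is constant on a normal subgroup built from rigid groups -/
theorem theta_const {ζ : E} (hζ : IsPrimitiveRoot ζ (Monoid.exponent G))
    (hL : ∀ τ, ∀ χ ∈ Irr G, MeromorphicAt (L τ χ) c ∧ meromorphicOrderAt (L τ χ) c ≠ ⊤)
    (hmon : ∀ (U : Subgroup G) (ψ : U →* Eˣ),
      Deligne L P c (ind U (fun u => ((ψ u : Eˣ) : E)))) (τ₀ : E →+* ℂ)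
    {deg : (G → ℂ) → ℕ} (hdeg : ∀ χ ∈ Irr G, χ 1 = deg χ) {r : ℕ}
    (hr : meromorphicOrderAt (fun s => ∏ᶠ χ ∈ Irr G, L τ₀ χ s ^ deg χ) c ≤ (r : WithTop ℤ))
    {N : Subgroup G} (hN : BuiltC r (FacO r) N) :
    ∀ k ∈ N, (theta (ords (L τ₀) c) : G → ℂ) k = (theta (ords (L τ₀) c) : G → ℂ) 1 := by
  have hθ := heil_ords hζ hL hmon τ₀
  have htop := top_order (hL τ₀) deg
  have hone := theta_one_eq (c := c) (l := L τ₀) hdeg
  obtain ⟨s, hs⟩ := hθ.exists_deg
  have h1 : (∑ χ ∈ irrF G, (deg χ : ℤ) * ords (L τ₀) c χ) = (s : ℤ) := by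
    rw [hone] at hs
    exact_mod_cast hs
  rw [htop, h1] at hr
  have h2 : s ≤ r := by exact_mod_cast hr
  intro k hk
  have h3 := Pool.Agent.TH820.builtC_const (hN.mono (fun S _ _ hS => hS.rigid)) hθ h2 hs k hk 1
  rwa [mul_one] at h3

/-- representations of a solvable quotient without small frames -/
theorem old_frames {ζ : E} (hζ : IsPrimitiveRoot ζ (Monoid.exponent G))
    (hL : ∀ τ, ∀ χ ∈ Irr G, MeromorphicAt (L τ χ) c ∧ meromorphicOrderAt (L τ χ) c ≠ ⊤)
    (hP : ∀ τ, ∀ χ ∈ Irr G, P τ χ ≠ 0)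
    (hmon : ∀ (U : Subgroup G) (ψ : U →* Eˣ),
      Deligne L P c (ind U (fun u => ((ψ u : Eˣ) : E)))) (τ₀ : E →+* ℂ)
    {deg : (G → ℂ) → ℕ} (hdeg : ∀ χ ∈ Irr G, χ 1 = deg χ)
    (K : Subgroup G) [hK : K.Normal] (hQ : Group.IsSolvable (G ⧸ K)) {r : ℕ}
    (hnf : Pool.Agent.U803.DT.NF {1} r (G ⧸ K))
    (hr : meromorphicOrderAt (fun s => ∏ᶠ χ ∈ Irr G, L τ₀ χ s ^ deg χ) c ≤ (r : WithTop ℤ))
    {W : Type} [AddCommGroup W] [Module E W] [FiniteDimensional E W] (σ : Representation E G W)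
    (hσ : ∀ k ∈ K, ∀ w, σ k w = w) : Deligne L P c σ.character := by
  classical
  have : Fintype G := Fintype.ofFinite G
  have hθ := heil_ords hζ hL hmon τ₀
  obtain ⟨a, ha, hord⟩ := Pool.Agent.U803.DT.exists_deg hζ hL hmon τ₀ hdeg
  have har : a ≤ r := by
    rw [hord] at hr
    exact_mod_cast hr
  let π : G →* G ⧸ K := QuotientGroup.mk' K
  have hπ : Function.Surjective π := QuotientGroup.mk'_surjective K
  let σ' : Representation E (G ⧸ K) W := QuotientGroup.lift K σ (by
    intro k hk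
    rw [MonoidHom.mem_ker]
    refine LinearMap.ext fun w => ?_
    rw [hσ k hk w]
    simp)
  have hσ' : ∀ g, σ.character g = σ'.character (π g) := fun g => rfl
  have h1 : (fun y => τ₀ (σ'.character y)) ∈ AddSubmonoid.closure (Irr (G ⧸ K)) :=
    base_change τ₀ σ'
  have h2 : AddSubmonoid.closure (Irr (G ⧸ K)) ≤
      Pool.Agent.U803.DT.MG (push π (theta (ords (L τ₀) c) : G → ℂ)) := by
    rw [AddSubmonoid.closure_le]
    intro ψ hψ
    exact Pool.Agent.U803.DT.dec {1} r _ (G ⧸ K) rfl hQ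
      (fun k hk => by
        rw [Set.mem_singleton_iff.mp hk]
        exact Nat.coprime_one_left _) hnf _ (push_isHeilbronn hπ hθ)
      (Virt.push hπ (theta_virt _)) (by
        obtain ⟨r', h2, h3⟩ := push_one_nat_le hπ hθ ha
        exact ⟨r', h2.trans har, h3⟩) (Pool.Agent.U803.DT.supp_one.push hπ) ψ hψ
  have h3 := Pool.Agent.U803.DT.mg_infl hπ (h2 h1)
  exact Pool.Agent.U803.DT.deligne_of_mg hζ hL hP hmon τ₀ h3

/-- the range of degrees for the special linear group `SL_n(k)` -/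
def LinRange (r n : ℕ) (k : Type) [Field k] : Prop :=
  3 ≤ n ∧ (r < n ∨ (ringChar k ≤ n ∧ r * Nat.gcd n (Nat.card k - 1) < Nat.card k ^ (n - 1) - 1))

lemma geom_lower (q m : ℕ) (hq : 2 ≤ q) (hm : 2 ≤ m) : m * (q - 1) + 1 < q ^ m := by
  induction m, hm using Nat.le_induction with
  | base =>
    obtain ⟨t, rfl⟩ : ∃ t, q = t + 2 := ⟨q - 2, by omega⟩
    have : t + 2 - 1 = t + 1 := by omega
    rw [this]
    nlinarith
  | succ m hm ih =>
    obtain ⟨t, rfl⟩ : ∃ t, q = t + 2 := ⟨q - 2, by omega⟩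
    have h1 : t + 2 - 1 = t + 1 := by omega
    rw [h1] at ih ⊢
    rw [pow_succ]
    have h2 : (m * (t + 1) + 2) * (t + 2) ≤ (t + 2) ^ m * (t + 2) := Nat.mul_le_mul_right _ ih
    nlinarith [Nat.zero_le (m * t), Nat.zero_le (m * t * t), Nat.zero_le m, Nat.zero_le t]

/-- the special linear groups in the range are allowed -/
lemma linRange_facO {r n : ℕ} {k : Type} [Field k] [Finite k] (h : LinRange r n k) :
    FacO r (Matrix.SpecialLinearGroup (Fin n) k) := by
  obtain ⟨hn, h⟩ := h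
  have : Fintype k := Fintype.ofFinite k
  have hq : 2 ≤ Nat.card k := Finite.one_lt_card
  by_cases h2 : (2 : k) = 0
  · -- characteristic two
    have hch : CharP k 2 := by
      refine CharTwo.of_one_ne_zero_of_two_eq_zero one_ne_zero h2
    left
    right
    left
    refine ⟨k, inferInstance, inferInstance, hch, n, 1, n - 1, by omega, one_pos, by omega,
      Nat.coprime_one_left _, ?_, ⟨MulEquiv.refl _⟩⟩
    have hkey : r * Nat.gcd n (Nat.card k - 1) < Nat.card k ^ (n - 1) - 1 := by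
      rcases h with h | ⟨-, h⟩
      · have h3 : Nat.gcd n (Nat.card k - 1) ≤ Nat.card k - 1 :=
          Nat.le_of_dvd (by omega) (Nat.gcd_dvd_right _ _)
        have h4 := geom_lower (Nat.card k) (n - 1) hq (by omega)
        have h5 : r * Nat.gcd n (Nat.card k - 1) ≤ (n - 1) * (Nat.card k - 1) :=
          Nat.mul_le_mul (by omega) h3
        omega
      · exact h
    rw [pow_one]
    have h6 : 0 < Nat.card k - 1 := by omega
    calc r * Nat.gcd n (Nat.card k - 1) * (Nat.card k - 1)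
        < (Nat.card k ^ (n - 1) - 1) * (Nat.card k - 1) := Nat.mul_lt_mul_of_pos_right hkey h6
      _ = (Nat.card k - 1) * (Nat.card k ^ (n - 1) - 1) := mul_comm _ _
  · right
    left
    exact ⟨k, inferInstance, inferInstance, n, h2, hn, h, ⟨MulEquiv.refl _⟩⟩

/-- A group with a surjection from a group between `SL_n(k)` and `GL_n(k)`. -/
lemma lin_setup {r n : ℕ} {k : Type} [Field k] [Finite k] (h : LinRange r n k)
    (Γ : Subgroup (Matrix.GeneralLinearGroup (Fin n) k))
    (hΓ : ∀ A : Matrix.GeneralLinearGroup (Fin n) k, Matrix.GeneralLinearGroup.det A = 1 → A ∈ Γ)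
    (π : Γ →* G) (hπ : Function.Surjective π) (N : Subgroup G)
    (hN : ∀ g : G, g ∈ N ↔ ∃ A : Γ,
      Matrix.GeneralLinearGroup.det (A : Matrix.GeneralLinearGroup (Fin n) k) = 1 ∧ π A = g) :
    N.Normal ∧ BuiltC r (FacO r) N ∧ (∀ [N.Normal], AN (G ⧸ N)) := by
  classical
  have hnor : N.Normal := by
    constructor
    intro x hx g
    obtain ⟨A, hA, rfl⟩ := (hN x).mp hx
    obtain ⟨B, rfl⟩ := hπ g
    refine (hN _).mpr ⟨B * A * B⁻¹, ?_, by simp⟩
    push_cast
    rw [map_mul, map_mul, map_inv, hA, mul_one, mul_inv_cancel]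
  refine ⟨hnor, ?_, ?_⟩
  · refine BuiltC.lay ⊥ N BuiltC.bot bot_le ⟨?_, 1, fun _ => N.map (QuotientGroup.mk' ⊥), ?_, ?_, ?_⟩
    · exact Subgroup.Normal.map hnor _ (QuotientGroup.mk'_surjective _)
    · intro i j hij
      exact absurd (Subsingleton.elim i j) hij
    · rw [ciSup_const]
    · intro _
      let ι : Matrix.SpecialLinearGroup (Fin n) k →* Γ :=
        { toFun := fun A => ⟨Matrix.SpecialLinearGroup.toGL A, hΓ _ (by
            apply Units.ext
            simp)⟩
          map_one' := Subtype.ext (map_one _)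
          map_mul' := fun A B => Subtype.ext (map_mul _ _ _) }
      refine ⟨Matrix.SpecialLinearGroup (Fin n) k, inferInstance, inferInstance,
        (QuotientGroup.mk' ⊥).comp (π.comp ι), linRange_facO h, ?_⟩
      ext y
      constructor
      · rintro ⟨A, rfl⟩
        refine ⟨π (ι A), ?_, rfl⟩
        refine (hN _).mpr ⟨ι A, ?_, rfl⟩
        apply Units.ext
        simp [ι]
      · rintro ⟨g, hg, rfl⟩
        obtain ⟨A, hA, rfl⟩ := (hN g).mp hg
        refine ⟨⟨((A : Matrix.GeneralLinearGroup (Fin n) k) : Matrix (Fin n) (Fin n) k), ?_⟩, ?_⟩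
        · have h3 := congrArg Units.val hA
          simpa using h3
        · change (QuotientGroup.mk' ⊥) (π (ι _)) = (QuotientGroup.mk' ⊥) (π A)
          congr 2
          exact Subtype.ext (Units.ext rfl)
  · intro _
    refine an_of_comm ?_
    intro a b
    obtain ⟨x, rfl⟩ := QuotientGroup.mk_surjective a
    obtain ⟨y, rfl⟩ := QuotientGroup.mk_surjective b
    obtain ⟨A, rfl⟩ := hπ x
    obtain ⟨B, rfl⟩ := hπ y
    rw [← QuotientGroup.mk_mul, ← QuotientGroup.mk_mul, QuotientGroup.eq]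
    refine (hN _).mpr ⟨(A * B)⁻¹ * (B * A), ?_, by simp⟩
    push_cast
    rw [map_mul, map_inv, map_mul, map_mul, mul_comm (Matrix.GeneralLinearGroup.det
      (B : Matrix.GeneralLinearGroup (Fin n) k)), inv_mul_cancel]

end Pool.Agent.U851.DL
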